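import Mathlib

set_option autoImplicit false

namespace Pool.Agent.Results.MP_e7d72a_nt.Resonance

open Polynomial

/-- The shift radix system. -/
noncomputable def tau {d : ℕ} (r : Fin d → ℝ) (z : Fin d → ℤ) : Fin d → ℤ :=
  fun i => if h : i.1 + 1 < d then z ⟨i.1 + 1, h⟩ else -⌊∑ j, r j * (z j : ℝ)⌋

/-- The characteristic polynomial of the companion matrix. -/
noncomputable def chi {d : ℕ} (r : Fin d → ℝ) : Polynomial ℂ :=
  X ^ d + ∑ j : Fin d, C (r j : ℂ) * X ^ j.1

/-- Parameters all of whose roots lie in the open unit disc. -/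
def E (d : ℕ) : Set (Fin d → ℝ) := {r | ∀ w : ℂ, (chi r).eval w = 0 → ‖w‖ < 1}

/-- Points of the closure of `E d` with a non-real root of modulus one. -/
def EC (d : ℕ) : Set (Fin d → ℝ) :=
  {r | r ∈ closure (E d) ∧ ∃ w : ℂ, w.im ≠ 0 ∧ ‖w‖ = 1 ∧ (chi r).eval w = 0}

/-- The orbit of `z` is ultimately periodic. -/
def UltPer {d : ℕ} (r : Fin d → ℝ) (z : Fin d → ℤ) : Prop :=
  ∃ n p : ℕ, 1 ≤ p ∧ (tau r)^[n + p] z = (tau r)^[n] z

noncomputable def par (m : ℕ) (t : ℝ) : Fin (m + 4) → ℝ :=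
  Fin.append (fun _ : Fin m => (0 : ℝ)) ![9 / 10 * t, 13 / 10 * t, 9 / 10 + t, 13 / 10]

lemma chi_par (m : ℕ) (t : ℝ) :
    chi (par m t) = X ^ m * ((X ^ 2 + C (t : ℂ)) * (X ^ 2 + C (13 / 10) * X + C (9 / 10))) := by
  unfold chi par
  rw [Fin.sum_univ_add]
  simp only [Fin.append_left, Fin.append_right, Fin.sum_univ_four, Matrix.cons_val,
    Fin.val_natAdd]
  simp only [Complex.ofReal_zero, map_zero, zero_mul, Finset.sum_const_zero, zero_add]
  push_cast
  simp only [map_mul, map_add, Fin.val_zero, Fin.val_one, Fin.val_two]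
  have h3 : ((3 : Fin 4) : ℕ) = 3 := rfl
  rw [h3]
  ring

lemma quad (w : ℂ) (h : w ^ 2 + 13 / 10 * w + 9 / 10 = 0) : ‖w‖ < 1 := by
  have h1 := congrArg Complex.re h
  have h2 := congrArg Complex.im h
  simp [pow_two] at h1 h2
  have h3 : w.im * (2 * w.re + 13 / 10) = 0 := by linarith
  have h4 : ‖w‖ ^ 2 = w.re * w.re + w.im * w.im := by
    rw [Complex.sq_norm, Complex.normSq_apply]
  rcases mul_eq_zero.1 h3 with h5 | h5
  · rw [h5] at h1; nlinarith [sq_nonneg (w.re + 13 / 20)]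
  · have h6 : w.re = -13 / 20 := by linarith
    rw [h6] at h1 h4
    have : ‖w‖ ^ 2 < 1 := by nlinarith
    exact (sq_lt_one_iff₀ (norm_nonneg _)).1 this

lemma par_mem (m : ℕ) (t : ℝ) (ht : t ∈ Set.Ioo (0 : ℝ) 1) : par m t ∈ E (m + 4) := by
  intro w hw
  rw [chi_par] at hw
  simp only [eval_mul, eval_pow, eval_X, eval_add, eval_C, mul_eq_zero] at hw
  rcases hw with hw | hw | hw
  · rw [pow_eq_zero_iff'] at hw
    rw [hw.1]; simp
  · have h1 : w ^ 2 = -(t : ℂ) := by linear_combination hw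
    have h2 : ‖w‖ ^ 2 = t := by
      rw [← norm_pow, h1, norm_neg, Complex.norm_real, Real.norm_eq_abs, abs_of_pos ht.1]
    have : ‖w‖ ^ 2 < 1 := by rw [h2]; exact ht.2
    exact (sq_lt_one_iff₀ (norm_nonneg _)).1 this
  · exact quad w hw

lemma par_cont (m : ℕ) : Continuous (par m) := by
  refine continuous_pi fun j => ?_
  refine Fin.addCases (fun i => ?_) (fun i => ?_) j
  · simp only [par, Fin.append_left]; exact continuous_const
  · simp only [par, Fin.append_right]
    fin_cases i <;> simp <;> fun_prop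

def A : ℕ → ℤ
  | 0 => 0 | 1 => 0 | 2 => 2 | 3 => 1 | 4 => -5 | 5 => 2 | 6 => 4 | _ => -3

def B : ℕ → ℤ
  | 0 => -1 | 1 => 0 | 2 => 1 | 3 => 0 | 4 => -1 | 5 => 0 | 6 => 1 | _ => 0

def seq (n : ℕ) : ℤ := A (n % 8) + B (n % 8) * (n / 8 : ℕ)

lemma seq_eq (k j : ℕ) (hj : j < 8) : seq (8 * k + j) = A j + B j * k := by
  unfold seq
  rw [show (8 * k + j) % 8 = j by omega, show (8 * k + j) / 8 = k by omega]

lemma seq_eq' (k j : ℕ) (hj : j < 8) : seq (8 * k + (8 + j)) = A j + B j * (k + 1) := by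
  rw [show 8 * k + (8 + j) = 8 * (k + 1) + j by ring, seq_eq _ _ hj]
  push_cast; rfl

lemma seq_rec (n : ℕ) :
    seq (n + 4) = -((9 * seq n + 13 * seq (n + 1) + 19 * seq (n + 2) + 13 * seq (n + 3)) / 10) := by
  obtain ⟨k, j, hj, rfl⟩ : ∃ k j, j < 8 ∧ n = 8 * k + j := ⟨n / 8, n % 8, by omega, by omega⟩
  have a0 := seq_eq k 0 (by norm_num)
  have a1 := seq_eq k 1 (by norm_num)
  have a2 := seq_eq k 2 (by norm_num)
  have a3 := seq_eq k 3 (by norm_num)
  have a4 := seq_eq k 4 (by norm_num)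
  have a5 := seq_eq k 5 (by norm_num)
  have a6 := seq_eq k 6 (by norm_num)
  have a7 := seq_eq k 7 (by norm_num)
  have a8 := seq_eq' k 0 (by norm_num)
  have a9 := seq_eq' k 1 (by norm_num)
  have a10 := seq_eq' k 2 (by norm_num)
  have a11 := seq_eq' k 3 (by norm_num)
  simp only [A, B, Nat.reduceAdd] at a0 a1 a2 a3 a4 a5 a6 a7 a8 a9 a10 a11
  interval_cases j <;> simp only [add_assoc, Nat.reduceAdd] <;> omega

lemma seq_shift (n p : ℕ) : seq (8 * p + n) = seq n + B (n % 8) * p := by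
  unfold seq
  rw [show (8 * p + n) % 8 = n % 8 by omega, show (8 * p + n) / 8 = n / 8 + p by omega]
  push_cast; ring

lemma B_ne (n : ℕ) : B (n % 8) ≠ 0 ∨ B ((n + 1) % 8) ≠ 0 := by
  obtain ⟨k, j, hj, rfl⟩ : ∃ k j, j < 8 ∧ n = 8 * k + j := ⟨n / 8, n % 8, by omega, by omega⟩
  rw [show (8 * k + j) % 8 = j by omega, show (8 * k + j + 1) % 8 = (j + 1) % 8 by omega]
  interval_cases j <;> simp [B]

lemma tau_step (m n : ℕ) :
    tau (par m 1) (fun i => seq (n + i.1)) = fun i => seq (n + 1 + i.1) := by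
  funext i
  unfold tau
  split_ifs with h
  · show seq (n + (i.1 + 1)) = seq (n + 1 + i.1)
    congr 1; omega
  · have hi : i.1 = m + 3 := by have := i.2; omega
    rw [Fin.sum_univ_add]
    simp only [par, Fin.append_left, Fin.append_right, Fin.sum_univ_four, Matrix.cons_val,
      Fin.val_natAdd, zero_mul, Finset.sum_const_zero, zero_add, Fin.val_zero, Fin.val_one,
      Fin.val_two]
    have h3 : ((3 : Fin 4) : ℕ) = 3 := rfl
    rw [h3, hi, show n + 1 + (m + 3) = n + m + 4 by ring, seq_rec, show n + (m + 0) = n + m by ring,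
      show n + (m + 1) = n + m + 1 by ring, show n + (m + 2) = n + m + 2 by ring,
      show n + (m + 3) = n + m + 3 by ring]
    congr 1
    rw [Int.floor_eq_iff]
    generalize seq (n + m) = a
    generalize seq (n + m + 1) = b
    generalize seq (n + m + 2) = c
    generalize seq (n + m + 3) = e
    obtain ⟨q, hq⟩ : ∃ q, q = (9 * a + 13 * b + 19 * c + 13 * e) / 10 := ⟨_, rfl⟩
    rw [← hq]
    have h1 : 10 * q ≤ 9 * a + 13 * b + 19 * c + 13 * e := by omega
    have h2 : 9 * a + 13 * b + 19 * c + 13 * e < 10 * q + 10 := by omega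
    have h1' : (10 : ℝ) * q ≤ 9 * a + 13 * b + 19 * c + 13 * e := by exact_mod_cast h1
    have h2' : (9 : ℝ) * a + 13 * b + 19 * c + 13 * e < 10 * q + 10 := by exact_mod_cast h2
    constructor <;> linarith

lemma tau_iter (m n : ℕ) :
    (tau (par m 1))^[n] (fun i => seq i.1) = fun i => seq (n + i.1) := by
  induction n with
  | zero => simp
  | succ n ih => rw [Function.iterate_succ_apply', ih, tau_step]

theorem result (d : ℕ) (hd : 4 ≤ d) :
    ∃ r ∈ EC d, (chi r).eval 1 ≠ 0 ∧ (chi r).eval (-1) ≠ 0 ∧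
      (∀ w : ℂ, ‖w‖ = 1 → (chi r).eval w = 0 → (derivative (chi r)).eval w ≠ 0) ∧
      ∃ z : Fin d → ℤ, ¬ UltPer r z := by
  obtain ⟨m, rfl⟩ : ∃ m, d = m + 4 := ⟨d - 4, by omega⟩
  refine ⟨par m 1, ⟨?_, Complex.I, by simp, by simp, ?_⟩, ?_, ?_, ?_, fun i => seq i.1, ?_⟩
  · refine map_mem_closure (par_cont m) (s := Set.Ioo (0 : ℝ) 1) ?_ (par_mem m)
    rw [closure_Ioo (by norm_num)]
    simp
  · rw [chi_par]; simp
  · rw [chi_par]; simp; norm_num
  · rw [chi_par]; simp; norm_num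
  · intro w hw h1 h2
    have hw0 : w ≠ 0 := by rintro rfl; simp at hw
    have hm : w ^ m ≠ 0 := pow_ne_zero _ hw0
    rw [chi_par] at h1 h2
    rw [eval_mul, eval_pow, eval_X] at h1
    have h3 := (mul_eq_zero.1 h1).resolve_left hm
    rw [derivative_mul, eval_add, eval_mul, h3, mul_zero, zero_add, eval_mul, eval_pow,
      eval_X] at h2
    have h4 := (mul_eq_zero.1 h2).resolve_left hm
    simp only [derivative_mul, derivative_add, derivative_X_pow, derivative_C, derivative_X,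
      eval_mul, eval_add, eval_pow, eval_X, eval_C, eval_zero, eval_one] at h3 h4
    push_cast at h3 h4
    have : (1 : ℂ) = 0 := by
      linear_combination (129136 / 275995 - 1641237 / 551990 * w - 57292 / 55199 * w ^ 2) * h3 +
        (122902 / 275995 + 31893 / 110398 * w + 456859 / 551990 * w ^ 2 +
          14323 / 55199 * w ^ 3) * h4
    exact one_ne_zero this
  · rintro ⟨n, p, hp, h⟩
    have h1 : Function.IsPeriodicPt (tau (par m 1)) p
        ((tau (par m 1))^[n] (fun i => seq i.1)) := by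
      unfold Function.IsPeriodicPt Function.IsFixedPt
      rw [← Function.iterate_add_apply, add_comm p n, h]
    have h2 := h1.const_mul 8
    unfold Function.IsPeriodicPt Function.IsFixedPt at h2
    rw [← Function.iterate_add_apply, tau_iter, tau_iter] at h2
    have h3 := congrFun h2 ⟨0, by omega⟩
    have h4 := congrFun h2 ⟨1, by omega⟩
    have h5 : seq (8 * p + n) = seq n := h3
    have h6 : seq (8 * p + (n + 1)) = seq (n + 1) := h4
    rw [seq_shift] at h5 h6
    have hp' : (p : ℤ) ≠ 0 := by omega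
    rcases B_ne n with h7 | h7
    · exact mul_ne_zero h7 hp' (by linarith)
    · exact mul_ne_zero h7 hp' (by linarith)

end Pool.Agent.Results.MP_e7d72a_nt.Resonance
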